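import Mathlib
import Pool.Agent.Helper24.KK.GoalsA

/-! Packet KK-SPL: the diagonal and the off-diagonal part of `Qf`. -/

set_option autoImplicit false

namespace Pool.Agent.Helper39.KK

open Finset
open Pool.Agent.Helper24.KK

theorem sq_sum (M : ℕ) (y : ℕ → ℝ) : (∑ n ∈ range M, y n) ^ 2 =
    ∑ n ∈ range M, y n ^ 2 + 2 * ∑ n ∈ range M, ∑ k ∈ range n, y n * y k := by
  induction M with
  | zero => simp
  | succ M ih =>
    rw [sum_range_succ, sum_range_succ, sum_range_succ, add_sq, ih, ← mul_sum]
    ring

theorem spl : SPL := by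
  intro Φ Mm _ _ _ _ M x u v W Xb F G hG hF hGG
  have hF2 : ∀ s, |F s| = 1 := by
    intro s; rcases hF s with h | h <;> rw [h] <;> simp
  have hG2 : ∀ s, |G s| = 1 := by
    intro s; rcases hGG s with h | h <;> rw [h] <;> simp
  set c : Mm → ℕ → ℕ → ℝ := fun m n k => if v k m = v n m then 0 else
    (F (u n m) * F (u k m)) * (G (v n m) * G (v k m)) with hc
  have hW0 : 0 ≤ W := le_trans zero_le_one hG.W1
  -- the bound for one point
  have key : ∀ m : Mm, (∑ n ∈ range M, x n * (F (u n m) * G (v n m))) ^ 2 ≤
      Xb * (1 + 2 * W) + 2 * ∑ n ∈ range M, x n * ∑ k ∈ range n, x k * c m n k := by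
    intro m
    rw [sq_sum]
    have h1 : ∑ n ∈ range M, (x n * (F (u n m) * G (v n m))) ^ 2 ≤ Xb := by
      refine le_trans (sum_le_sum ?_) hG.sx
      intro n hn
      have e1 : (x n * (F (u n m) * G (v n m))) ^ 2 = |x n| * |x n| := by
        rw [← sq_abs, abs_mul, abs_mul, hF2, hG2]
        ring
      rw [e1]
      have e2 := hG.x1 n (mem_range.1 hn)
      have e3 := abs_nonneg (x n)
      nlinarith
    have h2 : ∑ n ∈ range M, ∑ k ∈ range n,
        (x n * (F (u n m) * G (v n m))) * (x k * (F (u k m) * G (v k m))) ≤
        Xb * W + ∑ n ∈ range M, x n * ∑ k ∈ range n, x k * c m n k := by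
      have h3 : ∀ n ∈ range M, ∑ k ∈ range n,
          (x n * (F (u n m) * G (v n m))) * (x k * (F (u k m) * G (v k m))) ≤
          |x n| * W + x n * ∑ k ∈ range n, x k * c m n k := by
        intro n hn
        rw [mem_range] at hn
        have h4 : ∀ k ∈ range n,
            (x n * (F (u n m) * G (v n m))) * (x k * (F (u k m) * G (v k m))) ≤
            (if v k m = v n m then |x n| * |x k| else 0) + x n * (x k * c m n k) := by
          intro k _
          by_cases hv : v k m = v n m
          · simp only [hc, hv, if_true, mul_zero, add_zero]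
            refine le_trans (le_abs_self _) (le_of_eq ?_)
            simp only [abs_mul, hF2, hG2, mul_one]
          · simp only [hc, hv, if_false, zero_add]
            apply le_of_eq
            ring
        refine le_trans (sum_le_sum h4) ?_
        rw [sum_add_distrib, mul_sum]
        gcongr
        rw [← sum_filter, ← mul_sum]
        gcongr
        refine le_trans ?_ (hG.gap m (v n m))
        apply sum_le_sum_of_subset_of_nonneg
        · intro k hk
          simp only [mem_filter, mem_range] at hk ⊢
          exact ⟨by omega, hk.2⟩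
        · intro k _ _
          exact abs_nonneg _
      refine le_trans (sum_le_sum h3) ?_
      rw [sum_add_distrib, ← sum_mul]
      gcongr
      exact hG.sx
    linarith
  unfold Qf
  refine le_trans (sum_le_sum (fun m _ => key m)) ?_
  rw [sum_add_distrib, sum_const, card_univ, nsmul_eq_mul, ← mul_sum]
  refine le_of_eq ?_
  congr 1
  congr 1
  rw [sum_comm]
  apply sum_congr rfl
  intro n _
  rw [← mul_sum]
  congr 1
  unfold mainS
  rw [sum_comm]
  apply sum_congr rfl
  intro k _
  rw [← mul_sum]

end Pool.Agent.Helper39.KK
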